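import Mathlib
import Pool.Agent.V1156.DL.Fld

/-!
# The dynamical Lehmer problem for points whose iterates are nearly of small degree modulo `q`

Let `f` be a monic integer polynomial of degree `d ≥ 2`. There is a constant `A > 0`, depending on
`f` only, such that the following holds for every algebraic integer `α`, with canonical height
`ĥ(α)`, every `m ≥ 0` and every integer `q ≥ 2`. Let `N` be the number of conjugates of the iterate
`β = f^m(α)`, and let `G` be a monic integer polynomial of degree `D ≥ 1` such that `G(β)` is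
divisible by `q` (for instance, the minimal polynomial of `α` divides `G ∘ f^m` modulo `q`). Then

* `(N - D) log q ≤ 2 D (N d ^ m ĥ(α) + A (1 + log N))`;
* if `2 D ≤ N` and `8 A D (1 + log N) ≤ N log q`, then `ĥ(α) ≥ log q / (8 D d ^ m)`.

So the Lehmer inequality `ĥ(α) ≥ log q / (8 B n)`, `n` the degree of `α`, holds as soon as, for some
`m` and `q`, the minimal polynomial of `α` divides `G ∘ f^m` modulo `q` with `D d ^ m ≤ B n`,
`2 D ≤ N` and `N log q ≥ 8 A D (1 + log N)`. In particular

* if the minimal polynomial `g` of `α` is congruent to `G ∘ f^m` modulo `q`, `deg g = n = D d ^ m`,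
  `m ≥ 1`, `f^m` is injective on the zeros of `g` and `d ^ m log q ≥ 8 A (1 + log n)`, then
  `ĥ(α) ≥ log q / (8 n)`.

Method: the Vandermonde determinant of the conjugates of `β` is divisible by
`q ^ (∑_{j < N} ⌊j / D⌋)`; on the other hand it is bounded in terms of the canonical height by the
energy inequality with the Green function of `f`.
-/

set_option autoImplicit false

open Polynomial Module Filter Topology

namespace Pool.Agent.Results.MP_2194ec_nt.CompositionsModQ

/-- the map given by the integer polynomial `f` -/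
noncomputable def ev (f : ℤ[X]) {A : Type} [CommRing A] (x : A) : A := aeval x f

/-- `h` is the canonical height of the element `α` of the number field `L` for the polynomial `f`
of degree `d`: the limit of `h(f^m(α)) / d ^ m`, where the absolute logarithmic Weil height `h` is
Mathlib's (relative) `Height.logHeight₁` divided by `[L : ℚ]` -/
def IsCanonicalHeight (f : ℤ[X]) {L : Type} [Field L] [NumberField L] (α : L) (h : ℝ) : Prop :=
  Tendsto (fun m : ℕ => Height.logHeight₁ ((ev f)^[m] α) /
    ((finrank ℚ L : ℝ) * (f.natDegree : ℝ) ^ m)) atTop (𝓝 h)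

/-- the number of conjugates of `f^m(α)`, that is the degree of `f^m(α)` over `ℚ` -/
noncomputable def conjNumber (f : ℤ[X]) {L : Type} [Field L] [NumberField L] (α : L) (m : ℕ) : ℕ :=
  (minpoly ℚ ((ev f)^[m] α)).natDegree

/-- `G(f^m(α))` is divisible by `q` in the ring of integers of `L` -/
def DividesValue (f : ℤ[X]) {L : Type} [Field L] [NumberField L] (α : L) (m q : ℕ) (G : ℤ[X]) :
    Prop :=
  ∃ γ : L, IsIntegral ℤ γ ∧ aeval ((ev f)^[m] α) G = q * γ

lemma aeval_iter (f : ℤ[X]) {A : Type} [CommRing A] (x : A) (m : ℕ) :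
    aeval x (f.comp^[m] X) = (ev f)^[m] x := by
  induction m with
  | zero => simp
  | succ m ih =>
    rw [Function.iterate_succ_apply', Function.iterate_succ_apply', aeval_comp, ih]
    rfl

lemma int_aeval {L : Type} [Field L] [NumberField L] {α : L} (hα : IsIntegral ℤ α) (B : ℤ[X]) :
    IsIntegral ℤ (aeval α B) := by
  have : aeval α B = algebraMap (integralClosure ℤ L) L
      (aeval (⟨α, hα⟩ : integralClosure ℤ L) B) := by
    rw [← aeval_algebraMap_apply]
    rfl
  rw [this]
  exact (aeval (⟨α, hα⟩ : integralClosure ℤ L) B).2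

/-- if the minimal polynomial of `α` divides `G ∘ f^m` modulo `q`, then `q` divides `G(f^m(α))` -/
theorem dividesValue_of_dvd (f : ℤ[X]) {L : Type} [Field L] [NumberField L] {α : L}
    (hα : IsIntegral ℤ α) (m q : ℕ) (G U B : ℤ[X])
    (h : G.comp (f.comp^[m] X) = U * minpoly ℤ α + C (q : ℤ) * B) : DividesValue f α m q G := by
  refine ⟨aeval α B, int_aeval hα B, ?_⟩
  have h1 := congrArg (aeval α) h
  rw [aeval_comp, aeval_iter, map_add, map_mul, map_mul, minpoly.aeval, mul_zero, zero_add,
    aeval_C] at h1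
  rw [h1]
  simp

/-- **The dynamical Lehmer problem and compositions modulo `q`.** -/
theorem result (f : ℤ[X]) (hf : f.Monic) (hd : 2 ≤ f.natDegree) :
    ∃ A : ℝ, 0 < A ∧ ∀ (L : Type) [Field L] [NumberField L] (α : L), IsIntegral ℤ α →
      ∃ h : ℝ, IsCanonicalHeight f α h ∧
        (∀ (m q : ℕ) (G : ℤ[X]), 2 ≤ q → G.Monic → 1 ≤ G.natDegree → DividesValue f α m q G →
          ∀ N D : ℕ, N = conjNumber f α m → D = G.natDegree →
          ((N : ℝ) - D) * Real.log q ≤
            2 * D * (N * (f.natDegree ^ m * h) + A * (1 + Real.log N)) ∧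
          (2 * D ≤ N → 8 * A * D * (1 + Real.log N) ≤ N * Real.log q →
            Real.log q / (8 * D * f.natDegree ^ m) ≤ h)) ∧
        ∀ (m q : ℕ) (G B : ℤ[X]), 1 ≤ m → 2 ≤ q → G.Monic →
          G.comp (f.comp^[m] X) = minpoly ℤ α + C (q : ℤ) * B →
          ∀ n : ℕ, n = (minpoly ℤ α).natDegree → n = G.natDegree * f.natDegree ^ m →
          n = conjNumber f α m → 8 * A * (1 + Real.log n) ≤ f.natDegree ^ m * Real.log q →
            Real.log q / (8 * n) ≤ h := by
  obtain ⟨G₀, C, hC, hG0, hGlim, hGC, hG2, _⟩ := Pool.Agent.W666.DY.exists_green f hf hd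
  have hG1 : ∀ z : ℂ, Real.posLog ‖z‖ ≤ G₀ z + C := by
    intro z
    have := (abs_le.mp (hGC z)).2
    linarith
  have hg : Pool.Agent.V1156.DL.IsGreen f G₀ C := ⟨hf, hd, hC, hG0, hG1, hG2⟩
  have hA : (0 : ℝ) < 1 + 2 * (f.natDegree * C) := by positivity
  refine ⟨1 + 2 * (f.natDegree * C), hA, fun L _ _ α hα => ?_⟩
  obtain ⟨h, hh⟩ := Pool.Agent.Y642.DL.exists_CH hf hd α
  suffices key : ∀ (m q : ℕ) (G : ℤ[X]), 2 ≤ q → G.Monic → 1 ≤ G.natDegree →
      DividesValue f α m q G → ∀ N D : ℕ, N = conjNumber f α m → D = G.natDegree →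
      ((N : ℝ) - D) * Real.log q ≤ 2 * D * (N * (f.natDegree ^ m * h) +
        (1 + 2 * (f.natDegree * C)) * (1 + Real.log N)) ∧
      (2 * D ≤ N → 8 * (1 + 2 * (f.natDegree * C)) * D * (1 + Real.log N) ≤ N * Real.log q →
        Real.log q / (8 * D * f.natDegree ^ m) ≤ h) by
    refine ⟨h, hh, key, ?_⟩
    intro m q G B hm hq hGm hcomp n hn hnD hnN hlarge
    have hn0 : 0 < n := by
      rw [hnN]
      exact minpoly.natDegree_pos (Algebra.IsIntegral.isIntegral (R := ℚ) _)
    have hD0 : 1 ≤ G.natDegree := by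
      rcases Nat.eq_zero_or_pos G.natDegree with h0 | h0
      · rw [h0, zero_mul] at hnD
        omega
      · exact h0
    have hval : DividesValue f α m q G := by
      refine dividesValue_of_dvd f hα m q G 1 B ?_
      rw [one_mul]
      exact hcomp
    have hdm : 2 ≤ f.natDegree ^ m := by
      calc 2 ≤ f.natDegree := hd
        _ = f.natDegree ^ 1 := (pow_one _).symm
        _ ≤ f.natDegree ^ m := Nat.pow_le_pow_right (by omega) hm
    have hk := (key m q G hq hGm hD0 hval n G.natDegree hnN rfl).2 (by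
      rw [hnD, mul_comm]
      exact Nat.mul_le_mul_left _ hdm) (by
      have h1 : (0 : ℝ) ≤ G.natDegree := Nat.cast_nonneg _
      have h2 := mul_le_mul_of_nonneg_left hlarge h1
      have h3 : (n : ℝ) = G.natDegree * (f.natDegree : ℝ) ^ m := by
        rw [hnD]
        push_cast
        ring
      calc 8 * (1 + 2 * (f.natDegree * C)) * G.natDegree * (1 + Real.log n) =
          G.natDegree * (8 * (1 + 2 * (f.natDegree * C)) * (1 + Real.log n)) := by ring
        _ ≤ G.natDegree * (f.natDegree ^ m * Real.log q) := h2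
        _ = n * Real.log q := by rw [h3]; ring)
    have h3 : 8 * (n : ℝ) = 8 * G.natDegree * (f.natDegree : ℝ) ^ m := by
      rw [hnD]
      push_cast
      ring
    rw [h3]
    exact hk
  intro m q G hq hGm hGd hval N D hN hD
  have h2 := tendsto_nhds_unique hh (Pool.Agent.Y642.DL.can_height hf hd hGlim α)
  have h3 : Pool.Agent.Y642.DL.hG G₀ α ≤ h := by
    rw [h2]
    unfold Pool.Agent.Y642.DL.hG
    exact div_le_div_of_nonneg_right (by linarith [Pool.Agent.W666.DY.HF_nonneg α])
      (Nat.cast_nonneg _)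
  have hmain := Pool.Agent.V1156.DL.field_q hg hα m G hGm (by omega) q (by omega) hval N hN
  rw [← hD] at hmain
  have hN0 : 0 < N := by
    rw [hN]
    exact minpoly.natDegree_pos (Algebra.IsIntegral.isIntegral (R := ℚ) _)
  have hN0' : (0 : ℝ) < N := by exact_mod_cast hN0
  have hD0' : (0 : ℝ) < D := by exact_mod_cast (by omega : 0 < D)
  have hdm : (0 : ℝ) < (f.natDegree : ℝ) ^ m := by
    have : (0 : ℝ) < f.natDegree := by exact_mod_cast (by omega : 0 < f.natDegree)
    positivity
  have hfirst : ((N : ℝ) - D) * Real.log q ≤ 2 * D * (N * (f.natDegree ^ m * h) +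
      (1 + 2 * (f.natDegree * C)) * (1 + Real.log N)) := by
    refine hmain.trans ?_
    have h4 : (N : ℝ) * ((f.natDegree : ℝ) ^ m * Pool.Agent.Y642.DL.hG G₀ α) ≤
        N * (f.natDegree ^ m * h) :=
      mul_le_mul_of_nonneg_left (mul_le_mul_of_nonneg_left h3 hdm.le) hN0'.le
    exact mul_le_mul_of_nonneg_left (by linarith) (by positivity)
  refine ⟨hfirst, fun h5 h6 => ?_⟩
  have hlq : 0 < Real.log q := Real.log_pos (by exact_mod_cast (by omega : 1 < q))
  have h5' : 2 * (D : ℝ) ≤ N := by exact_mod_cast h5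
  have h7 : (N : ℝ) / 2 * Real.log q ≤ ((N : ℝ) - D) * Real.log q :=
    mul_le_mul_of_nonneg_right (by linarith) hlq.le
  have h8 : (N : ℝ) * Real.log q ≤ N * (8 * D * f.natDegree ^ m * h) := by nlinarith
  have h9 := le_of_mul_le_mul_left h8 hN0'
  rw [div_le_iff₀ (by positivity)]
  linarith

end Pool.Agent.Results.MP_2194ec_nt.CompositionsModQ
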