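import Mathlib
import Pool.Agent.V1156.DL.Frob

/-!
# The dynamical Lehmer problem for points with few distinct conjugates modulo a prime

Let `p` be a prime number, `q = p ^ k`, `k ≥ 1`, and let `f` be a monic integer polynomial with
`f ≡ X ^ q + c` modulo `p` (for example `X ^ q + c` for any integer `c`). There is a constant
`B > 0`, depending on `f` only, such that the following holds. Let `α` be an algebraic integer of
degree `n`, let `s` be the number of distinct zeros of its minimal polynomial modulo `p` (in an
algebraic closure of the field with `p` elements), and let `N ≥ 1` be a lower bound for the numbers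
of conjugates of all the iterates `f^t(α)`. If `B s (1 + log N) ≤ N`, then the canonical height
satisfies the Lehmer inequality `ĥ(α) ≥ log p / (8 (q + 1) n)`, with an explicit constant.

So a wandering integral point violating this inequality has `s > N / (B (1 + log N))`, where `N` is
the degree of `f^t(α)` for large `t`; nothing is assumed on `n / N`. The condition on the iterates
cannot be replaced by a condition on `α` only: for a fixed wandering `β` the zeros `α` of
`f^j(X) - β` have the canonical height `ĥ(β) / q ^ j` and at most `deg β` distinct conjugates modulo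
`p`, so a lower bound for all of them would be the Lehmer inequality for `β`.

Method: there is a monic integer polynomial `G` of degree `D ≤ n / q ^ t + s` such that the minimal
polynomial of `α` divides `G ∘ f^t` modulo `p`. So the Vandermonde determinant of the conjugates of
`f^t(α)` is divisible by a high power of `p`; on the other hand it is bounded in terms of the
canonical height by the energy inequality with the Green function of `f`. The number `t` of
iterations is chosen with `q ^ t` of order `(n / N) (1 + log N)`.
-/

set_option autoImplicit false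

open Polynomial Module Filter Topology

namespace Pool.Agent.Results.MP_2194ec_nt.FewZerosModP

/-- the map given by the integer polynomial `f` -/
noncomputable def ev (f : ℤ[X]) {A : Type} [CommRing A] (x : A) : A := aeval x f

/-- `h` is the canonical height of the element `α` of the number field `L` for the polynomial `f`
of degree `d`: the limit of `h(f^m(α)) / d ^ m`, where the absolute logarithmic Weil height `h` is
Mathlib's (relative) `Height.logHeight₁` divided by `[L : ℚ]` -/
def IsCanonicalHeight (f : ℤ[X]) {L : Type} [Field L] [NumberField L] (α : L) (h : ℝ) : Prop :=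
  Tendsto (fun m : ℕ => Height.logHeight₁ ((ev f)^[m] α) /
    ((finrank ℚ L : ℝ) * (f.natDegree : ℝ) ^ m)) atTop (𝓝 h)

/-- the number of conjugates of `f^m(α)`, that is the degree of `f^m(α)` over `ℚ` -/
noncomputable def conjNumber (f : ℤ[X]) {L : Type} [Field L] [NumberField L] (α : L) (m : ℕ) : ℕ :=
  (minpoly ℚ ((ev f)^[m] α)).natDegree

/-- the number of distinct zeros of `g` modulo `p`, in an algebraic closure of the field with `p`
elements -/
noncomputable def zerosMod (p : ℕ) [Fact p.Prime] (g : ℤ[X]) : ℕ :=
  ((g.map (Int.castRingHom (ZMod p))).rootSet (AlgebraicClosure (ZMod p))).ncard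

/-- **The dynamical Lehmer inequality for points with few distinct conjugates modulo `p`.** -/
theorem result (p k : ℕ) [Fact p.Prime] (hk : 1 ≤ k) (f : ℤ[X]) (hf : f.Monic) (c : ZMod p)
    (hfp : f.map (Int.castRingHom (ZMod p)) = X ^ p ^ k + C c) :
    ∃ B : ℝ, 0 < B ∧ ∀ (L : Type) [Field L] [NumberField L] (α : L), IsIntegral ℤ α →
      ∃ h : ℝ, IsCanonicalHeight f α h ∧ ∀ N : ℕ, 1 ≤ N → (∀ t : ℕ, N ≤ conjNumber f α t) →
        B * zerosMod p (minpoly ℤ α) * (1 + Real.log N) ≤ N →
          Real.log p / (8 * (p ^ k + 1) * (minpoly ℤ α).natDegree) ≤ h := by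
  have hp : p.Prime := Fact.out
  have hfd : f.natDegree = p ^ k := by
    rw [← hf.natDegree_map (Int.castRingHom (ZMod p)), hfp]
    exact natDegree_X_pow_add_C
  have hd : 2 ≤ f.natDegree := by
    rw [hfd]
    exact Nat.one_lt_pow (by omega) hp.one_lt
  obtain ⟨G₀, C₀, hC, hG0, hGlim, hGC, hG2, _⟩ := Pool.Agent.W666.DY.exists_green f hf hd
  have hG1 : ∀ z : ℂ, Real.posLog ‖z‖ ≤ G₀ z + C₀ := by
    intro z
    have := (abs_le.mp (hGC z)).2
    linarith
  have hg : Pool.Agent.V1156.DL.IsGreen f G₀ C₀ := ⟨hf, hd, hC, hG0, hG1, hG2⟩
  refine ⟨max 4 (16 * (1 + 2 * (f.natDegree * C₀)) / Real.log p),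
    lt_of_lt_of_le (by norm_num) (le_max_left _ _), fun L _ _ α hα => ?_⟩
  obtain ⟨h, hh⟩ := Pool.Agent.Y642.DL.exists_CH hf hd α
  refine ⟨h, hh, fun N hN1 hN hs => ?_⟩
  have h2 := tendsto_nhds_unique hh (Pool.Agent.Y642.DL.can_height hf hd hGlim α)
  have h3 : Pool.Agent.Y642.DL.hG G₀ α ≤ h := by
    rw [h2]
    unfold Pool.Agent.Y642.DL.hG
    exact div_le_div_of_nonneg_right (by linarith [Pool.Agent.W666.DY.HF_nonneg α])
      (Nat.cast_nonneg _)
  refine le_trans ?_ h3
  refine Pool.Agent.V1156.DL.few_zeros hg k hk c hfp _ _ rfl rfl hα N hN1 hN (le_trans ?_ hs)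
  have h4 := Pool.Agent.TH53.HR.rdeg_le ((minpoly ℤ α).map (Int.castRingHom (ZMod p)))
    ((minpoly.monic hα).map _).ne_zero (Ω := AlgebraicClosure (ZMod p))
  have h5 : (Pool.Agent.TH53.HR.rdeg ((minpoly ℤ α).map (Int.castRingHom (ZMod p))) : ℝ) ≤
      zerosMod p (minpoly ℤ α) := by exact_mod_cast h4
  have h6 : 0 ≤ Real.log N := Real.log_natCast_nonneg _
  have h7 : (0 : ℝ) ≤ max 4 (16 * (1 + 2 * (f.natDegree * C₀)) / Real.log p) :=
    le_trans (by norm_num) (le_max_left _ _)
  exact mul_le_mul_of_nonneg_right (mul_le_mul_of_nonneg_left h5 h7) (by linarith)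

end Pool.Agent.Results.MP_2194ec_nt.FewZerosModP
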