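import Mathlib
import Pool.Agent.V1156.DL.Pot3
import Pool.Agent.V1156.DL.Pot4

/-!
# The dynamical Lehmer problem for points with large values at preperiodic points

Let `f` be a monic integer polynomial of degree `d ≥ 2` and let `b` be a monic integer polynomial
without multiple complex zeros that divides `b ∘ f`: the zeros of `b` form a finite set that is
mapped into itself by `f`, so they are preperiodic points of `f` (for instance `b = X^r - 1` for
`f = X^d`, or `b = X (X + 1)` for `f = X^2 - 1`). For an algebraic integer `α` of degree `n` that is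
not a zero of `b`, let `ℓ` be the logarithm of the absolute value of the norm of `b(α)`, and let
`ĥ(α)` be the canonical height. There are constants `B, c > 0`, depending on `f` and `b` only, with

* `ĥ(α) ≥ c min (1, ℓ ^ 2 / (n ^ 2 (1 + log n)))` as soon as `ℓ ≥ B √n (1 + log n)`;
* **the Lehmer inequality** `ĥ(α) ≥ c / n` as soon as `α` is wandering, every iterate `f^m(α)` has
  exactly `n` conjugates, and `ℓ √(1 + log (1 + log n)) ≥ B √n (1 + log n)`.

(The first part gives `ĥ(α) ≥ c' (1 + log n) / n`. The trivial upper bound for `ℓ` is `O(n)` if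
`ĥ(α)` is bounded.)

Method: the energy inequality with the Green function `G` of `f`, for the union of the conjugates
of `f^m(α)`, `m < k`, and of `w` charges on a small circle around each zero `s` of `b`. The Green
function is Hölder continuous near `s` and vanishes at `s`, so the charges have small energy even if
`s` is a repelling point in the Julia set; since `b(α)` divides `b(f^m(α))`, the norms of the values
at the iterates are at least `exp ℓ`.
-/

set_option autoImplicit false

open Polynomial Module Filter Topology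

namespace Pool.Agent.Results.MP_2194ec_nt.LargeValues

/-- the map given by the integer polynomial `f` -/
noncomputable def ev (f : ℤ[X]) {A : Type} [CommRing A] (x : A) : A := aeval x f

/-- `h` is the canonical height of the element `α` of the number field `L` for the polynomial `f`
of degree `d`: the limit of `h(f^m(α)) / d ^ m`, where the absolute logarithmic Weil height `h` is
Mathlib's (relative) `Height.logHeight₁` divided by `[L : ℚ]` -/
def IsCanonicalHeight (f : ℤ[X]) {L : Type} [Field L] [NumberField L] (α : L) (h : ℝ) : Prop :=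
  Tendsto (fun m : ℕ => Height.logHeight₁ ((ev f)^[m] α) /
    ((finrank ℚ L : ℝ) * (f.natDegree : ℝ) ^ m)) atTop (𝓝 h)

/-- the number of conjugates of `f^m(α)`, that is the degree of `f^m(α)` over `ℚ` -/
noncomputable def conjNumber (f : ℤ[X]) {L : Type} [Field L] [NumberField L] (α : L) (m : ℕ) : ℕ :=
  (minpoly ℚ ((ev f)^[m] α)).natDegree

/-- the product of `|b(z)|` over the conjugates `z` of the algebraic integer `α`: the absolute
value of the norm (from `ℚ(α)` to `ℚ`) of `b(α)` -/
noncomputable def absNorm (b : ℤ[X]) {L : Type} [Field L] [NumberField L] (α : L) : ℝ :=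
  (((minpoly ℤ α).map (Int.castRingHom ℂ)).roots.map fun z => ‖aeval z b‖).prod

/-- `α` is wandering: the iterates `f^m(α)` are pairwise distinct -/
def Wandering (f : ℤ[X]) {L : Type} [Field L] [NumberField L] (α : L) : Prop :=
  Function.Injective fun m : ℕ => (ev f)^[m] α

open Pool.Agent.V1156.DL Pool.Agent.H388SL Pool.Agent.H389R3.LR Pool.Agent.H389R3.LP in
lemma logNorm_absNorm (b : ℤ[X]) {L : Type} [Field L] [NumberField L] {α : L}
    (hα : IsIntegral ℤ α) (h0 : aeval α b ≠ 0) : logNorm b α = Real.log (absNorm b α) := by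
  classical
  unfold absNorm logNorm
  rw [minpolyZ_map hα, Finset.prod_eq_multiset_prod, roots_multiset_prod_X_sub_C]
  have h1 : ((conjSet α).val.map fun z => ‖aeval z b‖).prod = ∏ z ∈ conjSet α, ‖aeval z b‖ := rfl
  rw [h1, Real.log_prod]
  intro z hz
  obtain ⟨σ, hσ⟩ := mem_conjSet.mp hz
  rw [← hσ, norm_ne_zero_iff]
  have h2 : aeval (σ α) b = σ (aeval α b) := aeval_algHom_apply (σ.restrictScalars ℤ) α b
  rw [h2]
  exact (map_ne_zero σ).mpr h0

open Pool.Agent.V1156.DL Pool.Agent.H388SL Pool.Agent.H389R3.LR Pool.Agent.H389R3.LP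
  Pool.Agent.W666.DL Pool.Agent.W666.DY Pool.Agent.Y642.LZ Pool.Agent.Y642.DL in
/-- **The dynamical Lehmer problem for points with large values at preperiodic points.** -/
theorem result (f : ℤ[X]) (hf : f.Monic) (hd : 2 ≤ f.natDegree) (b : ℤ[X]) (hb : b.Monic)
    (hs : (b.map (Int.castRingHom ℂ)).roots.Nodup) (hdvd : b ∣ b.comp f) :
    ∃ B c : ℝ, 0 < B ∧ 0 < c ∧ ∀ (L : Type) [Field L] [NumberField L] (α : L), IsIntegral ℤ α →
      aeval α b ≠ 0 → ∀ n : ℕ, n = (minpoly ℤ α).natDegree →
      ∃ h : ℝ, IsCanonicalHeight f α h ∧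
        (B * (Real.sqrt n * (1 + Real.log n)) ≤ Real.log (absNorm b α) →
          c * min 1 (Real.log (absNorm b α) ^ 2 / (n ^ 2 * (1 + Real.log n))) ≤ h) ∧
        (Wandering f α → (∀ m, conjNumber f α m = n) →
          B * (Real.sqrt n * (1 + Real.log n)) ≤
            Real.log (absNorm b α) * Real.sqrt (1 + Real.log (1 + Real.log n)) →
          c / n ≤ h) := by
  obtain ⟨G₀, C, hC, hG0, hGlim, hGC, hG2, _⟩ := Pool.Agent.W666.DY.exists_green f hf hd
  have hG1 : ∀ z : ℂ, Real.posLog ‖z‖ ≤ G₀ z + C := by
    intro z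
    have := (abs_le.mp (hGC z)).2
    linarith
  have hG1' : ∀ z : ℂ, G₀ z ≤ Real.posLog ‖z‖ + C := by
    intro z
    have := (abs_le.mp (hGC z)).1
    linarith
  have hg : Pool.Agent.V1156.DL.IsGreen f G₀ C := ⟨hf, hd, hC, hG0, hG1, hG2⟩
  obtain ⟨S, hS⟩ := exists_zeros b hb hs
  obtain ⟨A, hA, hmain⟩ := large_value hg hG1' b S hS hdvd
  have hd2 : (2:ℝ) ≤ f.natDegree := by exact_mod_cast hd
  have hlogd : 0 ≤ Real.log f.natDegree := Real.log_nonneg (by linarith)
  have hu1 : 1 ≤ Real.sqrt (1 + Real.log f.natDegree) := Real.one_le_sqrt.mpr (by linarith)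
  refine ⟨26 * A * Real.sqrt (1 + Real.log f.natDegree), 1 / (16 * A ^ 2 * f.natDegree),
    by positivity, by positivity, fun L _ _ α hα h0 n hn => ?_⟩
  obtain ⟨h, hh⟩ := Pool.Agent.Y642.DL.exists_CH hf hd α
  have h2 := tendsto_nhds_unique hh (Pool.Agent.Y642.DL.can_height hf hd hGlim α)
  have h3 : Pool.Agent.Y642.DL.hG G₀ α ≤ h := by
    rw [h2]
    unfold Pool.Agent.Y642.DL.hG
    exact div_le_div_of_nonneg_right (by linarith [Pool.Agent.W666.DY.HF_nonneg α])
      (Nat.cast_nonneg _)
  have hhG : 0 ≤ hG G₀ α := div_nonneg (Finset.sum_nonneg fun σ _ => hG0 _) (Nat.cast_nonneg _)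
  have hnQ : n = (minpoly ℚ α).natDegree := by
    rw [hn, minpoly.isIntegrallyClosed_eq_field_fractions' ℚ hα, (minpoly.monic hα).natDegree_map]
  have hn0 : 1 ≤ n := by
    rw [hnQ]
    exact minpoly.natDegree_pos (Algebra.IsIntegral.isIntegral (R := ℚ) _)
  have hn1 : (1:ℝ) ≤ n := by exact_mod_cast hn0
  have hln : 0 ≤ Real.log n := Real.log_nonneg hn1
  refine ⟨h, hh, ?_, ?_⟩
  · intro hℓ
    rw [← logNorm_absNorm b hα h0] at hℓ ⊢
    have hopt := opt_one (A := A) (ℓ := logNorm b α) (h := f.natDegree * hG G₀ α) hA hn0 rfl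
      (by
        refine le_trans ?_ hℓ
        have h4 : 0 ≤ Real.sqrt n * (1 + Real.log n) := by positivity
        have h5 : 4 * A ≤ 26 * A * Real.sqrt (1 + Real.log f.natDegree) := by nlinarith
        exact mul_le_mul_of_nonneg_right h5 h4)
      (by
        intro w hw1 hw2
        have h4 := hmain hα n 1 w hnQ le_rfl (by simp [Set.PairwiseDisjoint, Set.Pairwise])
          (by
            intro m hm
            have : m = 0 := by omega
            subst this
            exact h0)
          (by
            intro m hm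
            have : m = 0 := by omega
            subst this
            exact hnQ.symm) hw1 (by omega)
        simp only [Nat.cast_one, mul_one, one_mul, pow_one] at h4
        exact h4)
    have h5 : 1 / (16 * A ^ 2 * f.natDegree) *
        min 1 (logNorm b α ^ 2 / (n ^ 2 * (1 + Real.log n))) ≤ hG G₀ α := by
      have h6 : 1 / (16 * A ^ 2) * min 1 (logNorm b α ^ 2 / (n ^ 2 * (1 + Real.log n))) =
          f.natDegree * (1 / (16 * A ^ 2 * f.natDegree) *
            min 1 (logNorm b α ^ 2 / (n ^ 2 * (1 + Real.log n)))) := by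
        have : (f.natDegree : ℝ) ≠ 0 := by linarith
        field_simp
      rw [h6] at hopt
      exact le_of_mul_le_mul_left hopt (by linarith)
    exact h5.trans h3
  · intro hw hcount hℓ
    rw [← logNorm_absNorm b hα h0] at hℓ
    have hw' : Function.Injective fun m : ℕ => (ph f)^[m] α := hw
    have hopt := opt_two (A := A) (ℓ := logNorm b α) (h := hG G₀ α) (d := f.natDegree) hA hd2 hn0
      rfl hℓ hhG
      (by
        intro k w hk hw1 hw2
        exact hmain hα n k w hnQ hk (by
          intro m _ l _ hml
          exact conjSet_ne f hw' hml) (fun m _ => value_ne hS hdvd hw' m)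
          (fun m _ => hcount m) hw1 hw2)
    refine le_trans ?_ (hopt.trans h3)
    rw [div_div, one_div, one_div]
    apply inv_anti₀ (by positivity)
    have h4 : 1 ≤ 16 * A ^ 2 := by nlinarith
    have h5 : (0:ℝ) ≤ f.natDegree * n := by positivity
    nlinarith

end Pool.Agent.Results.MP_2194ec_nt.LargeValues
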