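import Mathlib
import Pool.Agent.V1156.DL.Loc

/-!
# The dynamical Lehmer problem and one factor of the minimal polynomial modulo a prime

Let `f` be a monic integer polynomial of degree `d ≥ 2`. There is a constant `A > 0`, depending on
`f` only, such that the following holds for every prime `p` and every algebraic integer `α` of degree
`n` with canonical height `ĥ(α)`. Suppose that the minimal polynomial of `α` is congruent to `P R`
modulo `p` with coprime `P`, `R`, and let `a = deg P`. Nothing is assumed on the factor `R`.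

(1) Let `m ≥ 0`, let `N` be the number of conjugates of `f^m(α)`, and let `G` be a monic integer
polynomial of degree `D ≥ 1` such that `P` divides `G ∘ f^m` modulo `p`. Then
`a (a N - 2 D n) log p ≤ 2 D n ^ 2 (N d ^ m ĥ(α) + A (1 + log N))`.

(2) If moreover `4 D n ≤ a N` and `8 A D n ^ 2 (1 + log N) ≤ a ^ 2 N log p`, then
`ĥ(α) ≥ a ^ 2 log p / (8 D d ^ m n ^ 2)`.

So for `a ≥ θ n`, `D d ^ m ≤ B n` this is the Lehmer inequality `ĥ(α) ≥ θ ^ 2 log p / (8 B n)`.

(3) Suppose that `f ≡ X ^ q + c` modulo `p`, `q = p ^ k`, `k ≥ 1`. There is `B > 0`, depending on `f`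
and `p` only, such that `ĥ(α) ≥ a log p / (16 n ^ 2)` as soon as `a ≥ 1`, all the irreducible factors of `P`
have multiplicity at least `M` in `P`, all the iterates `f^t(α)` have at least `N ≥ 1` conjugates,
and `M ≥ B (n ^ 2 / (a N)) (1 + log N)`.

So if a positive proportion `a ≥ θ n` of the zeros of the minimal polynomial modulo `p`, counted with
multiplicity, have multiplicity at least `B (n / (θ N)) (1 + log N)`, then the Lehmer inequality
`ĥ(α) ≥ θ log p / (16 n)` holds; this is a condition of partial ramification at `p`.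

Method: by Hensel's lemma `P` corresponds to `a` conjugates of `α` for which the value of `G` at
`f^m` of the conjugate is divisible by `p`; the other conjugates are arbitrary. The discriminant of
the conjugates of `f^m(α)` is divisible by a power of `p` whose exponent is quadratic in `a`, and it
is bounded in terms of the canonical height by the energy inequality with the Green function of `f`.
-/

set_option autoImplicit false

open Polynomial Module Filter Topology IntermediateField

namespace Pool.Agent.Results.MP_2194ec_nt.LocalFactorsModP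

/-- the map given by the integer polynomial `f` -/
noncomputable def ev (f : ℤ[X]) {A : Type} [CommRing A] (x : A) : A := aeval x f

/-- `h` is the canonical height of the element `α` of the number field `L` for the polynomial `f`
of degree `d`: the limit of `h(f^m(α)) / d ^ m`, where the absolute logarithmic Weil height `h` is
Mathlib's (relative) `Height.logHeight₁` divided by `[L : ℚ]` -/
def IsCanonicalHeight (f : ℤ[X]) {L : Type} [Field L] [NumberField L] (α : L) (h : ℝ) : Prop :=
  Tendsto (fun m : ℕ => Height.logHeight₁ ((ev f)^[m] α) /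
    ((finrank ℚ L : ℝ) * (f.natDegree : ℝ) ^ m)) atTop (𝓝 h)

/-- the number of conjugates of `f^m(α)`, that is the degree of `f^m(α)` over `ℚ` -/
noncomputable def conjNumber (f : ℤ[X]) {L : Type} [Field L] [NumberField L] (α : L) (m : ℕ) : ℕ :=
  (minpoly ℚ ((ev f)^[m] α)).natDegree

/-- the minimal polynomial of `α` is congruent to `P R` modulo `p`, with coprime `P`, `R` -/
def Factors (p : ℕ) {L : Type} [Field L] (α : L) (P R : (ZMod p)[X]) : Prop :=
  (minpoly ℤ α).map (Int.castRingHom (ZMod p)) = P * R ∧ IsCoprime P R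

/-- **The dynamical Lehmer problem and one factor of the minimal polynomial modulo `p`.** -/
theorem result (f : ℤ[X]) (hf : f.Monic) (hd : 2 ≤ f.natDegree) :
    (∃ A : ℝ, 0 < A ∧ ∀ (L : Type) [Field L] [NumberField L] (α : L), IsIntegral ℤ α → ℚ⟮α⟯ = ⊤ →
      ∃ h : ℝ, IsCanonicalHeight f α h ∧ ∀ (p : ℕ), p.Prime → ∀ P R : (ZMod p)[X],
        Factors p α P R → ∀ (m : ℕ) (G : ℤ[X]), G.Monic → 1 ≤ G.natDegree →
        P ∣ (G.comp (f.comp^[m] X)).map (Int.castRingHom (ZMod p)) →
        ∀ n N D a : ℕ, n = finrank ℚ L → N = conjNumber f α m → D = G.natDegree →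
          a = P.natDegree →
          (a : ℝ) * (a * N - 2 * D * n) * Real.log p ≤
            2 * D * n ^ 2 * (N * (f.natDegree ^ m * h) + A * (1 + Real.log N)) ∧
          (4 * D * n ≤ a * N → 8 * A * D * n ^ 2 * (1 + Real.log N) ≤ a ^ 2 * N * Real.log p →
            a ^ 2 * Real.log p / (8 * D * f.natDegree ^ m * n ^ 2) ≤ h)) ∧
    ∀ (p k : ℕ) [Fact p.Prime] (c : ZMod p), 1 ≤ k →
      f.map (Int.castRingHom (ZMod p)) = X ^ p ^ k + C c →
      ∃ B : ℝ, 0 < B ∧ ∀ (L : Type) [Field L] [NumberField L] (α : L), IsIntegral ℤ α →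
        ℚ⟮α⟯ = ⊤ → ∃ h : ℝ, IsCanonicalHeight f α h ∧ ∀ P R : (ZMod p)[X], Factors p α P R →
        ∀ M : ℕ, (∀ S : (ZMod p)[X], Irreducible S → S ∣ P → S ^ M ∣ P) →
        ∀ n N a : ℕ, n = finrank ℚ L → 1 ≤ N → (∀ t : ℕ, N ≤ conjNumber f α t) →
          a = P.natDegree → 1 ≤ a → B * n ^ 2 * (1 + Real.log N) ≤ M * (a * N) →
          a * Real.log p / (16 * n ^ 2) ≤ h := by
  obtain ⟨G₀, C₀, hC, hG0, hGlim, hGC, hG2, _⟩ := Pool.Agent.W666.DY.exists_green f hf hd
  have hG1 : ∀ z : ℂ, Real.posLog ‖z‖ ≤ G₀ z + C₀ := by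
    intro z
    have := (abs_le.mp (hGC z)).2
    linarith
  have hg : Pool.Agent.V1156.DL.IsGreen f G₀ C₀ := ⟨hf, hd, hC, hG0, hG1, hG2⟩
  have hA : (0 : ℝ) < 1 + 2 * (f.natDegree * C₀) := by positivity
  have hd0 : (0 : ℝ) < f.natDegree := by exact_mod_cast (by omega : 0 < f.natDegree)
  have key : ∀ {L : Type} [Field L] [NumberField L] (α : L) {h : ℝ}, IsCanonicalHeight f α h →
      Pool.Agent.Y642.DL.hG G₀ α ≤ h := by
    intro L _ _ α h hh
    have h2 := tendsto_nhds_unique hh (Pool.Agent.Y642.DL.can_height hf hd hGlim α)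
    rw [h2]
    unfold Pool.Agent.Y642.DL.hG
    exact div_le_div_of_nonneg_right (by linarith [Pool.Agent.W666.DY.HF_nonneg α])
      (Nat.cast_nonneg _)
  refine ⟨⟨1 + 2 * (f.natDegree * C₀), hA, fun L _ _ α hα hgen => ?_⟩, ?_⟩
  · obtain ⟨h, hh⟩ := Pool.Agent.Y642.DL.exists_CH hf hd α
    refine ⟨h, hh, ?_⟩
    intro p hp P R hPR m G hGm hGd hPG n N D a hn hN hD ha
    have hmain := Pool.Agent.V1156.DL.loc_ineq hg hp hα hgen m P R hPR.1 hPR.2 G hGm (by omega)
      hPG N hN n hn
    rw [← hD, ← ha] at hmain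
    have hN0 : 0 < N := by
      rw [hN]
      exact minpoly.natDegree_pos (Algebra.IsIntegral.isIntegral (R := ℚ) _)
    have hN0' : (0 : ℝ) < N := by exact_mod_cast hN0
    have hn0 : 0 < n := by rw [hn]; exact finrank_pos
    have hn0' : (0 : ℝ) < n := by exact_mod_cast hn0
    have hD0' : (0 : ℝ) < D := by exact_mod_cast (by omega : 0 < D)
    have hfirst : (a : ℝ) * (a * N - 2 * D * n) * Real.log p ≤
        2 * D * n ^ 2 * (N * (f.natDegree ^ m * h) +
          (1 + 2 * (f.natDegree * C₀)) * (1 + Real.log N)) := by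
      refine hmain.trans ?_
      have h4 : (N : ℝ) * ((f.natDegree : ℝ) ^ m * Pool.Agent.Y642.DL.hG G₀ α) ≤
          N * (f.natDegree ^ m * h) :=
        mul_le_mul_of_nonneg_left (mul_le_mul_of_nonneg_left (key α hh) (by positivity)) hN0'.le
      exact mul_le_mul_of_nonneg_left (by linarith) (by positivity)
    refine ⟨hfirst, fun h5 h6 => ?_⟩
    have h7 := Pool.Agent.V1156.DL.crit (E := (f.natDegree : ℝ) ^ m) (h := h) hN0' hn0' hD0'
      (by positivity) (Nat.cast_nonneg a) (Real.log_natCast_nonneg p) hfirst (by exact_mod_cast h5)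
      (by
        calc 8 * (D : ℝ) * n ^ 2 * ((1 + 2 * (f.natDegree * C₀)) * (1 + Real.log N)) =
            8 * (1 + 2 * (f.natDegree * C₀)) * D * n ^ 2 * (1 + Real.log N) := by ring
          _ ≤ _ := h6)
    have h8 : 8 * (D : ℝ) * f.natDegree ^ m * n ^ 2 = 8 * D * n ^ 2 * f.natDegree ^ m := by ring
    rw [h8]
    exact h7
  · intro p k _ c hk hfp
    have hp : p.Prime := Fact.out
    have hpk : (0 : ℝ) < (p : ℝ) ^ k := by
      have : (0 : ℝ) < p := by exact_mod_cast hp.pos
      positivity
    have hB0 : (0 : ℝ) < max 8 (16 * (1 + 2 * (f.natDegree * C₀)) / Real.log p) :=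
      lt_of_lt_of_le (by norm_num) (le_max_left _ _)
    refine ⟨(p : ℝ) ^ k * max 8 (16 * (1 + 2 * (f.natDegree * C₀)) / Real.log p),
      mul_pos hpk hB0, fun L _ _ α hα hgen => ?_⟩
    obtain ⟨h, hh⟩ := Pool.Agent.Y642.DL.exists_CH hf hd α
    refine ⟨h, hh, ?_⟩
    intro P R hPR M hM n N a hn hN1 hN ha ha1 hlarge
    have h1 := Pool.Agent.V1156.DL.loc_mult hg k hk c hfp _ _ rfl rfl hα hgen P R hPR.1 hPR.2
      (by omega) N hN1 hN n hn M hM (by
        rw [← ha]
        calc _ = (p : ℝ) ^ k * max 8 (16 * (1 + 2 * (f.natDegree * C₀)) / Real.log p) * n ^ 2 *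
            (1 + Real.log N) := by ring
          _ ≤ _ := hlarge)
    rw [← ha] at h1
    exact h1.trans (key α hh)

end Pool.Agent.Results.MP_2194ec_nt.LocalFactorsModP
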